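import Mathlib

/-!
# SR Max: the maximum of a cubic form on the unit sphere (helper6)
-/

set_option autoImplicit false

namespace Pool.Agent.H6.SR

open Finset

variable {N : ℕ}

/-- the trilinear form -/
def Tf (T : Fin N → Fin N → Fin N → ℝ) (u v w : Fin N → ℝ) : ℝ := ∑ i, ∑ j, ∑ k, T i j k * u i * v j * w k

theorem Tf_cont (T : Fin N → Fin N → Fin N → ℝ) : Continuous fun z => Tf T z z z := by
  unfold Tf
  fun_prop

theorem Tf_smul (T : Fin N → Fin N → Fin N → ℝ) (c : ℝ) (z : Fin N → ℝ) :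
    Tf T (fun i => c * z i) (fun i => c * z i) (fun i => c * z i) = c ^ 3 * Tf T z z z := by
  unfold Tf
  simp only [Finset.mul_sum]
  refine Finset.sum_congr rfl fun i _ => Finset.sum_congr rfl fun j _ => Finset.sum_congr rfl fun k _ => ?_
  ring

theorem Tf_swap1 {T : Fin N → Fin N → Fin N → ℝ} (h1 : ∀ i j k, T i j k = T j i k) (u v w : Fin N → ℝ) :
    Tf T u v w = Tf T v u w := by
  unfold Tf
  rw [Finset.sum_comm]
  refine Finset.sum_congr rfl fun i _ => Finset.sum_congr rfl fun j _ => Finset.sum_congr rfl fun k _ => ?_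
  rw [h1]
  ring

theorem Tf_swap2 {T : Fin N → Fin N → Fin N → ℝ} (h2 : ∀ i j k, T i j k = T i k j) (u v w : Fin N → ℝ) :
    Tf T u v w = Tf T u w v := by
  unfold Tf
  refine Finset.sum_congr rfl fun i _ => ?_
  rw [Finset.sum_comm]
  refine Finset.sum_congr rfl fun j _ => Finset.sum_congr rfl fun k _ => ?_
  rw [h2]
  ring

theorem Tf_exp {T : Fin N → Fin N → Fin N → ℝ} (h1 : ∀ i j k, T i j k = T j i k) (h2 : ∀ i j k, T i j k = T i k j)
    (y w : Fin N → ℝ) (s : ℝ) :
    Tf T (fun i => y i + s * w i) (fun i => y i + s * w i) (fun i => y i + s * w i) =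
      Tf T y y y + s * (3 * Tf T y y w) + s ^ 2 * (3 * Tf T w w y) + s ^ 3 * Tf T w w w := by
  have e1 : Tf T w y y = Tf T y y w := by rw [Tf_swap1 h1, Tf_swap2 h2]
  have e2 : Tf T y w y = Tf T y y w := Tf_swap2 h2 _ _ _
  have e3 : Tf T y w w = Tf T w w y := by rw [Tf_swap1 h1, Tf_swap2 h2]
  have e4 : Tf T w y w = Tf T w w y := Tf_swap2 h2 _ _ _
  have e : Tf T (fun i => y i + s * w i) (fun i => y i + s * w i) (fun i => y i + s * w i) =
      Tf T y y y + (s * Tf T w y y + s * Tf T y w y + s * Tf T y y w) +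
        (s ^ 2 * Tf T w w y + s ^ 2 * Tf T w y w + s ^ 2 * Tf T y w w) + s ^ 3 * Tf T w w w := by
    unfold Tf
    simp only [Finset.mul_sum, ← Finset.sum_add_distrib]
    refine Finset.sum_congr rfl fun i _ => Finset.sum_congr rfl fun j _ => Finset.sum_congr rfl fun k _ => ?_
    ring
  rw [e, e1, e2, e3, e4]
  ring

theorem lin_zero {a b c d : ℝ} (h : ∀ s : ℝ, a * s + b * s ^ 2 + c * s ^ 3 + d * s ^ 4 ≤ 0) : a = 0 := by
  have h1 : HasDerivAt (fun s : ℝ => a * s + b * s ^ 2 + c * s ^ 3 + d * s ^ 4)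
      (a * 1 + b * (2 * 0 ^ 1 * 1) + c * (3 * 0 ^ 2 * 1) + d * (4 * 0 ^ 3 * 1)) 0 := by
    have hid := hasDerivAt_id' (0 : ℝ)
    have := (((hid.const_mul a).fun_add ((hid.fun_pow 2).const_mul b)).fun_add ((hid.fun_pow 3).const_mul c)).fun_add
      ((hid.fun_pow 4).const_mul d)
    simpa using this
  have h2 : IsLocalMax (fun s : ℝ => a * s + b * s ^ 2 + c * s ^ 3 + d * s ^ 4) 0 := by
    refine Filter.Eventually.of_forall fun s => ?_
    have := h s
    simpa using this
  have := h2.hasDerivAt_eq_zero h1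
  simpa using this

/-- If `t ≤ 0` for the maximum `t`, the cubic form vanishes (it is odd). -/
theorem max_cubic (hN : 1 ≤ N) (T : Fin N → Fin N → Fin N → ℝ) (h1 : ∀ i j k, T i j k = T j i k)
    (h2 : ∀ i j k, T i j k = T i k j) :
    ∃ (y : Fin N → ℝ) (t : ℝ), ∑ i, y i ^ 2 = 1 ∧ (∀ k, ∑ i, ∑ j, T i j k * y i * y j = t * y k) ∧
      (t = 0 → ∀ z : Fin N → ℝ, ∑ i, ∑ j, ∑ k, T i j k * z i * z j * z k = 0) := by
  have hcomp : IsCompact {y : Fin N → ℝ | ∑ i, y i ^ 2 = 1} := by
    refine Metric.isCompact_of_isClosed_isBounded (isClosed_eq (by fun_prop) continuous_const) ?_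
    refine Metric.isBounded_closedBall.subset (s := {y : Fin N → ℝ | ∑ i, y i ^ 2 = 1})
      (t := Metric.closedBall 0 1) ?_
    intro y hy
    rw [mem_closedBall_zero_iff, pi_norm_le_iff_of_nonneg zero_le_one]
    intro i
    have h3 : y i ^ 2 ≤ ∑ j, y j ^ 2 := Finset.single_le_sum (f := fun j => y j ^ 2) (fun j _ => sq_nonneg _) (Finset.mem_univ i)
    have h4 : ∑ j, y j ^ 2 = 1 := hy
    rw [h4] at h3
    rw [Real.norm_eq_abs]
    exact (sq_le_one_iff_abs_le_one _).1 h3
  have hne : {y : Fin N → ℝ | ∑ i, y i ^ 2 = 1}.Nonempty := by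
    refine ⟨fun i => if i = ⟨0, hN⟩ then 1 else 0, ?_⟩
    show ∑ i : Fin N, (if i = ⟨0, hN⟩ then (1 : ℝ) else 0) ^ 2 = 1
    simp
  obtain ⟨y, hy, hmax⟩ := hcomp.exists_isMaxOn hne (Tf_cont T).continuousOn
  have hy1 : ∑ i, y i ^ 2 = 1 := hy
  -- the bound by homogeneity
  have hbd : ∀ z : Fin N → ℝ, Tf T z z z ≤ Tf T y y y * Real.sqrt (∑ i, z i ^ 2) ^ 3 := by
    intro z
    rcases eq_or_lt_of_le (Finset.sum_nonneg fun i (_ : i ∈ Finset.univ) => sq_nonneg (z i)) with h0 | h0
    · have hz : ∀ i, z i = 0 := by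
        intro i
        have := (Finset.sum_eq_zero_iff_of_nonneg (fun i _ => sq_nonneg (z i))).1 h0.symm i (Finset.mem_univ i)
        exact pow_eq_zero_iff (two_ne_zero) |>.1 this
      rw [← h0]
      have : Tf T z z z = 0 := by
        unfold Tf
        simp [hz]
      rw [this]
      simp
    · have hr : 0 < Real.sqrt (∑ i, z i ^ 2) := Real.sqrt_pos.2 h0
      set r := Real.sqrt (∑ i, z i ^ 2) with hrdef
      have hr2 : r ^ 2 = ∑ i, z i ^ 2 := Real.sq_sqrt h0.le
      have h5 : (fun i => r⁻¹ * z i) ∈ {y : Fin N → ℝ | ∑ i, y i ^ 2 = 1} := by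
        show ∑ i, (r⁻¹ * z i) ^ 2 = 1
        simp only [mul_pow]
        rw [← Finset.mul_sum, ← hr2, ← mul_pow, inv_mul_cancel₀ hr.ne', one_pow]
      have h6 := hmax h5
      simp only [Set.mem_ofPred_eq] at h6
      rw [Tf_smul] at h6
      have h7 : r ^ 3 * (r⁻¹ ^ 3 * Tf T z z z) ≤ r ^ 3 * Tf T y y y := mul_le_mul_of_nonneg_left h6 (by positivity)
      have h8 : r ^ 3 * (r⁻¹ ^ 3 * Tf T z z z) = Tf T z z z := by
        rw [← mul_assoc, ← mul_pow, mul_inv_cancel₀ hr.ne', one_pow, one_mul]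
      rw [h8] at h7
      rw [mul_comm]
      exact h7
  have hneg : Tf T (fun i => (-1) * y i) (fun i => (-1) * y i) (fun i => (-1) * y i) = - Tf T y y y := by
    rw [Tf_smul]
    ring
  have ht : 0 ≤ Tf T y y y := by
    have h5 := hbd (fun i => (-1) * y i)
    rw [hneg] at h5
    have e : ∑ i, ((-1) * y i) ^ 2 = 1 := by
      have e' : ∑ i, ((-1) * y i) ^ 2 = ∑ i, y i ^ 2 := Finset.sum_congr rfl fun i _ => by ring
      rw [e', hy1]
    rw [e, Real.sqrt_one, one_pow, mul_one] at h5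
    linarith
  refine ⟨y, Tf T y y y, hy1, fun k => ?_, fun h0 z => ?_⟩
  · -- first order condition
    set w : Fin N → ℝ := fun i => (if i = k then 1 else 0) - y k * y i with hw
    have hperp : ∑ i, y i * w i = 0 := by
      simp only [hw, mul_sub, Finset.sum_sub_distrib]
      have e1 : ∑ i, y i * (if i = k then (1 : ℝ) else 0) = y k := by simp
      have e2 : ∑ i, y i * (y k * y i) = y k := by
        have : ∑ i, y i * (y k * y i) = y k * ∑ i, y i ^ 2 := by
          rw [Finset.mul_sum]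
          exact Finset.sum_congr rfl fun i _ => by ring
        rw [this, hy1, mul_one]
      rw [e1, e2, sub_self]
    have hlin : 3 * Tf T y y w = 0 := by
      refine lin_zero (a := 3 * Tf T y y w) (b := 3 * Tf T w w y - 2 * Tf T y y y * ∑ i, w i ^ 2)
        (c := Tf T w w w) (d := - (Tf T y y y * (∑ i, w i ^ 2) ^ 2)) fun s => ?_
      have h5 := hbd (fun i => y i + s * w i)
      rw [Tf_exp h1 h2] at h5
      have e : ∑ i, (y i + s * w i) ^ 2 = 1 + s ^ 2 * ∑ i, w i ^ 2 := by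
        have : ∑ i, (y i + s * w i) ^ 2 = ∑ i, y i ^ 2 + 2 * s * ∑ i, y i * w i + s ^ 2 * ∑ i, w i ^ 2 := by
          simp only [Finset.mul_sum, ← Finset.sum_add_distrib]
          exact Finset.sum_congr rfl fun i _ => by ring
        rw [this, hperp, hy1]
        ring
      rw [e] at h5
      have hW : 0 ≤ ∑ i, w i ^ 2 := Finset.sum_nonneg fun i _ => sq_nonneg _
      set W := ∑ i, w i ^ 2
      have hq : 1 ≤ 1 + s ^ 2 * W := by nlinarith [mul_nonneg (sq_nonneg s) hW]
      have hr1 : 1 ≤ Real.sqrt (1 + s ^ 2 * W) := Real.one_le_sqrt.2 hq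
      have hr2 : Real.sqrt (1 + s ^ 2 * W) ^ 2 = 1 + s ^ 2 * W := Real.sq_sqrt (by linarith)
      have h6 : Real.sqrt (1 + s ^ 2 * W) ^ 3 ≤ (1 + s ^ 2 * W) ^ 2 := by
        calc Real.sqrt (1 + s ^ 2 * W) ^ 3 ≤ Real.sqrt (1 + s ^ 2 * W) ^ 4 := pow_le_pow_right₀ hr1 (by norm_num)
          _ = (Real.sqrt (1 + s ^ 2 * W) ^ 2) ^ 2 := by ring
          _ = _ := by rw [hr2]
      have h7 := mul_le_mul_of_nonneg_left h6 ht
      nlinarith [h5, h7]
    have h8 : Tf T y y w = ∑ i, ∑ j, T i j k * y i * y j - y k * Tf T y y y := by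
      unfold Tf
      simp only [Finset.mul_sum, ← Finset.sum_sub_distrib]
      refine Finset.sum_congr rfl fun i _ => Finset.sum_congr rfl fun j _ => ?_
      have : ∀ l, T i j l * y i * y j * w l = (if l = k then T i j l * y i * y j else 0) -
          y k * (T i j l * y i * y j * y l) := by
        intro l
        simp only [hw]
        split_ifs <;> ring
      simp only [this, Finset.sum_sub_distrib]
      rw [Finset.sum_ite_eq' Finset.univ k]
      simp
    linarith
  · have hle : ∀ z : Fin N → ℝ, Tf T z z z ≤ 0 := by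
      intro z
      have := hbd z
      rwa [h0, zero_mul] at this
    have h5 := hle z
    have h6 := hle (fun i => (-1) * z i)
    rw [Tf_smul] at h6
    show Tf T z z z = 0
    linarith

end Pool.Agent.H6.SR
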