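import Mathlib

/-!
# SR Num: a product which decays like `n ^ (-a)` (helper6)
-/

set_option autoImplicit false

namespace Pool.Agent.H6.SR

open Filter Topology

theorem step {a a' l : ℝ} (hl : 0 ≤ l) (ha : a' < a) :
    ∀ᶠ n : ℕ in atTop, (1 - a / (n + l)) * ((n : ℝ) + 1) ^ a' ≤ (n : ℝ) ^ a' := by
  set g : ℝ → ℝ := fun x => (1 - a * x / (1 + l * x)) * (1 + x) ^ a' with hg
  have hd : HasDerivAt g (a' - a) 0 := by
    have h1 : HasDerivAt (fun x : ℝ => 1 - a * x / (1 + l * x)) (-a) 0 := by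
      have h2 : HasDerivAt (fun x : ℝ => a * x) a 0 := by simpa using (hasDerivAt_id' (0 : ℝ)).const_mul a
      have h3 : HasDerivAt (fun x : ℝ => 1 + l * x) l 0 := by
        simpa using ((hasDerivAt_id' (0 : ℝ)).const_mul l).const_add 1
      have h4 := (h2.fun_div h3 (by simp)).const_sub 1
      simpa using h4
    have h5 : HasDerivAt (fun x : ℝ => (1 + x) ^ a') a' 0 := by
      have h6 : HasDerivAt (fun x : ℝ => 1 + x) 1 0 := (hasDerivAt_id' (0 : ℝ)).const_add 1
      have h7 := h6.rpow_const (p := a') (Or.inl (by norm_num))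
      simpa using h7
    have h8 := h1.fun_mul h5
    have e : -a * (1 + (0 : ℝ)) ^ a' + (1 - a * 0 / (1 + l * 0)) * a' = a' - a := by
      simp
      ring
    rw [e] at h8
    exact h8
  have hslope := hasDerivAt_iff_tendsto_slope.1 hd
  have hev : ∀ᶠ x in 𝓝[≠] (0 : ℝ), slope g 0 x < 0 := hslope.eventually (gt_mem_nhds (by linarith))
  have hx : Tendsto (fun n : ℕ => 1 / (n : ℝ)) atTop (𝓝[≠] 0) := by
    refine tendsto_nhdsWithin_iff.2 ⟨tendsto_one_div_atTop_nhds_zero_nat, ?_⟩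
    filter_upwards [eventually_gt_atTop 0] with n hn
    have : (0 : ℝ) < n := by exact_mod_cast hn
    simp only [Set.mem_compl_iff, Set.mem_singleton_iff]
    positivity
  filter_upwards [hx.eventually hev, eventually_gt_atTop 0] with n hn hn0
  have hn1 : (0 : ℝ) < n := by exact_mod_cast hn0
  have hx0 : 0 < 1 / (n : ℝ) := by positivity
  have h9 : g (1 / n) < 1 := by
    rw [slope_def_field] at hn
    have hg0 : g 0 = 1 := by simp [hg]
    rw [hg0, sub_zero] at hn
    by_contra hcon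
    push Not at hcon
    have : 0 ≤ (g (1 / n) - 1) / (1 / (n : ℝ)) := div_nonneg (by linarith) hx0.le
    linarith
  have e1 : a * (1 / (n : ℝ)) / (1 + l * (1 / (n : ℝ))) = a / (n + l) := by
    field_simp
  have e2 : (1 + 1 / (n : ℝ)) ^ a' * (n : ℝ) ^ a' = ((n : ℝ) + 1) ^ a' := by
    rw [← Real.mul_rpow (by positivity) hn1.le]
    congr 1
    field_simp
  have h10 : g (1 / n) = (1 - a / (n + l)) * (1 + 1 / (n : ℝ)) ^ a' := by
    show (1 - a * (1 / (n : ℝ)) / (1 + l * (1 / (n : ℝ)))) * (1 + 1 / (n : ℝ)) ^ a' = _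
    rw [e1]
  rw [h10] at h9
  have hp : 0 < (n : ℝ) ^ a' := Real.rpow_pos_of_pos hn1 _
  calc (1 - a / (n + l)) * ((n : ℝ) + 1) ^ a' = ((1 - a / (n + l)) * (1 + 1 / (n : ℝ)) ^ a') * (n : ℝ) ^ a' := by
        rw [mul_assoc, e2]
    _ ≤ 1 * (n : ℝ) ^ a' := mul_le_mul_of_nonneg_right h9.le hp.le
    _ = _ := one_mul _

theorem num {J : ℕ → ℝ} {a b c l : ℝ} (hl : 0 ≤ l) (hc : 0 < c) {N0 : ℕ}
    (hrec : ∀ n : ℕ, 1 ≤ n → J (n + 1) = J n * (1 - a / (n + l)))
    (hlow : ∀ n : ℕ, N0 ≤ n → c * (n : ℝ) ^ (-b) ≤ J n) : a ≤ b := by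
  by_contra hab
  push Not at hab
  obtain ⟨N1, hN1⟩ := eventually_atTop.1 (step (a := a) (a' := (a + b) / 2) hl (by linarith))
  set M := max (max N0 N1) 1 with hM
  have hpos : ∀ n, M ≤ n → 0 < J n := by
    intro n hn
    have h0 : (0 : ℝ) < n := by
      have : 1 ≤ n := le_trans (le_max_right _ _) hn
      exact_mod_cast this
    exact lt_of_lt_of_le (mul_pos hc (Real.rpow_pos_of_pos h0 _)) (hlow n ((le_max_left _ _).trans ((le_max_left _ _).trans hn)))
  have hmono : ∀ k : ℕ, J (M + k) * ((M + k : ℕ) : ℝ) ^ ((a + b) / 2) ≤ J M * (M : ℝ) ^ ((a + b) / 2) := by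
    intro k
    induction k with
    | zero => simp
    | succ k ih =>
      refine le_trans ?_ ih
      have h1 : 1 ≤ M + k := by
        have : 1 ≤ M := le_max_right _ _
        omega
      have h2 := hN1 (M + k) (by
        have : N1 ≤ M := (le_max_right _ _).trans (le_max_left _ _)
        omega)
      rw [← add_assoc, hrec _ h1, mul_assoc]
      refine mul_le_mul_of_nonneg_left ?_ (hpos _ (by omega)).le
      push_cast at h2 ⊢
      exact h2
  have hbd : ∀ n : ℕ, M ≤ n → c * (n : ℝ) ^ ((a - b) / 2) ≤ J M * (M : ℝ) ^ ((a + b) / 2) := by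
    intro n hn
    obtain ⟨k, rfl⟩ := Nat.exists_eq_add_of_le hn
    refine le_trans ?_ (hmono k)
    have h0 : (0 : ℝ) < ((M + k : ℕ) : ℝ) := by
      have : 1 ≤ M + k := by
        have : 1 ≤ M := le_max_right _ _
        omega
      exact_mod_cast this
    have h3 := hlow (M + k) (by
      have : N0 ≤ M := (le_max_left _ _).trans (le_max_left _ _)
      omega)
    have h4 := mul_le_mul_of_nonneg_right h3 (Real.rpow_pos_of_pos h0 ((a + b) / 2)).le
    refine le_trans (le_of_eq ?_) h4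
    rw [mul_assoc, ← Real.rpow_add h0]
    congr 2
    ring
  have ht : Tendsto (fun n : ℕ => c * (n : ℝ) ^ ((a - b) / 2)) atTop atTop :=
    ((tendsto_rpow_atTop (by linarith)).comp tendsto_natCast_atTop_atTop).const_mul_atTop hc
  obtain ⟨n, hn1, hn2⟩ := ((ht.eventually_gt_atTop (J M * (M : ℝ) ^ ((a + b) / 2))).and (eventually_ge_atTop M)).exists
  exact absurd (hbd n hn2) (not_le.2 hn1)

end Pool.Agent.H6.SR
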